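import Pool.Agent.H17.PD.Up

/-!
# MP_ff26cb_ag: number of standard monomials
-/

set_option autoImplicit false

namespace Pool.Agent.H17.PD

open Finset

/-- `β` is determined by the small exponents -/
theorem card_small (n r b : ℕ) (j : Fin (n + 1)) :
    ((Finset.finsuppAntidiag (Finset.univ : Finset (Fin (n + 1))) b).filter
      fun β => ∀ i, i ≠ j → β i < r).card ≤ r ^ n := by
  classical
  have h1 : (Fintype.piFinset (fun _ : Fin n => Finset.range r)).card = r ^ n := by
    rw [Fintype.card_piFinset]
    simp
  rw [← h1]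
  refine Finset.card_le_card_of_injOn (fun β i => β (j.succAbove i)) ?_ ?_
  · intro β hβ
    rw [Finset.mem_coe, Finset.mem_filter] at hβ
    rw [Finset.mem_coe, Fintype.mem_piFinset]
    intro i
    rw [Finset.mem_range]
    exact hβ.2 _ (Fin.succAbove_ne j i)
  · intro β hβ β' hβ' h
    rw [Finset.mem_coe, Finset.mem_filter, Finset.mem_finsuppAntidiag] at hβ hβ'
    have h2 : ∀ i, β (j.succAbove i) = β' (j.succAbove i) := fun i => congrFun h i
    have h3 : β j + ∑ i, β (j.succAbove i) = b := by
      rw [← Fin.sum_univ_succAbove]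
      exact hβ.1.1
    have h4 : β' j + ∑ i, β' (j.succAbove i) = b := by
      rw [← Fin.sum_univ_succAbove]
      exact hβ'.1.1
    rw [Finset.sum_congr rfl fun i _ => h2 i] at h3
    ext i
    by_cases hij : i = j
    · rw [hij]
      omega
    · obtain ⟨l, rfl⟩ := Fin.exists_succAbove_eq hij
      exact h2 l

/-- the large exponents -/
def Lg (n r : ℕ) (β : Fin (n + 1) →₀ ℕ) : Finset (Fin (n + 1)) :=
  Finset.univ.filter fun j => r ≤ β j

theorem card_one (n r b : ℕ) :
    ((Finset.finsuppAntidiag (Finset.univ : Finset (Fin (n + 1))) b).filter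
      fun β => (Lg n r β).card = 1).card ≤ (n + 1) * r ^ n := by
  classical
  calc _ ≤ ((Finset.univ : Finset (Fin (n + 1))).biUnion fun j =>
        (Finset.finsuppAntidiag (Finset.univ : Finset (Fin (n + 1))) b).filter
          fun β => ∀ i, i ≠ j → β i < r).card := by
        refine Finset.card_le_card ?_
        intro β hβ
        rw [Finset.mem_filter, Finset.card_eq_one] at hβ
        obtain ⟨h1, j, hj⟩ := hβ
        rw [Finset.mem_biUnion]
        refine ⟨j, Finset.mem_univ _, ?_⟩
        rw [Finset.mem_filter]
        refine ⟨h1, fun i hi => ?_⟩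
        by_contra hc
        have h2 : i ∈ Lg n r β := by
          rw [Lg, Finset.mem_filter]
          exact ⟨Finset.mem_univ _, not_lt.1 hc⟩
        rw [hj, Finset.mem_singleton] at h2
        exact hi h2
    _ ≤ ∑ j : Fin (n + 1), ((Finset.finsuppAntidiag (Finset.univ : Finset (Fin (n + 1))) b).filter
          fun β => ∀ i, i ≠ j → β i < r).card := Finset.card_biUnion_le
    _ ≤ ∑ _j : Fin (n + 1), r ^ n := Finset.sum_le_sum fun j _ => card_small n r b j
    _ = (n + 1) * r ^ n := by simp

/-- exponents vanishing on a set -/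
theorem card_van (n a : ℕ) (Z : Finset (Fin (n + 2))) :
    ((Finset.finsuppAntidiag (Finset.univ : Finset (Fin (n + 2))) a).filter
      fun α => ∀ i ∈ Z, α i = 0).card ≤ Nat.multichoose (n + 2 - Z.card) a := by
  classical
  have h1 : (Finset.finsuppAntidiag (Finset.univ \ Z) a).card =
      Nat.multichoose (n + 2 - Z.card) a := by
    rw [Finset.card_finsuppAntidiag_nat_eq_multichoose, Finset.card_sdiff_of_subset
      (Finset.subset_univ _), Finset.card_univ, Fintype.card_fin]
  rw [← h1]
  refine Finset.card_le_card ?_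
  intro α hα
  rw [Finset.mem_filter, Finset.mem_finsuppAntidiag] at hα
  rw [Finset.mem_finsuppAntidiag]
  constructor
  · rw [← hα.1.1]
    refine Finset.sum_subset (Finset.subset_univ _) ?_
    intro i _ hi
    rw [Finset.mem_sdiff] at hi
    push Not at hi
    exact hα.2 i (hi (Finset.mem_univ _))
  · intro i hi
    rw [Finset.mem_sdiff]
    refine ⟨Finset.mem_univ _, fun hZ => ?_⟩
    exact (Finsupp.mem_support_iff.1 hi) (hα.2 i hZ)

theorem card_std (n r a b : ℕ) (hb : (n + 1) * r ≤ b) :
    (Std n r a b).card ≤ (n + 1) * r ^ n * Nat.multichoose (n + 1) a +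
      (Finset.finsuppAntidiag (Finset.univ : Finset (Fin (n + 1))) b).card *
        Nat.multichoose n a := by
  classical
  set A := Finset.finsuppAntidiag (Finset.univ : Finset (Fin (n + 2))) a with hA
  set B := Finset.finsuppAntidiag (Finset.univ : Finset (Fin (n + 1))) b with hB
  have h0 : (Std n r a b).card ≤ ∑ β ∈ B,
      (A.filter fun α => ∀ j ∈ Lg n r β, α j.castSucc = 0).card := by
    have h1 : (Std n r a b).card ≤ (B.sigma fun β =>
        A.filter fun α => ∀ j ∈ Lg n r β, α j.castSucc = 0).card := by
      refine Finset.card_le_card_of_injOn (fun μ => ⟨μ.2.1, μ.1.1⟩) ?_ ?_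
      · intro μ hμ
        rw [Finset.mem_coe, Std, Finset.mem_filter] at hμ
        rw [Finset.mem_coe, Finset.mem_sigma, Finset.mem_filter]
        refine ⟨μ.2.2, μ.1.2, ?_⟩
        intro j hj
        rw [Lg, Finset.mem_filter] at hj
        rcases hμ.2 j with h | h
        · exact h
        · exact absurd h (not_lt.2 hj.2)
      · intro μ _ μ' _ h
        have h2 : μ.2.1 = μ'.2.1 := congrArg Sigma.fst h
        have h3 : μ.1.1 = μ'.1.1 := by
          have h4 := (Sigma.mk.inj_iff.1 h).2
          exact eq_of_heq h4
        exact Prod.ext (Subtype.ext h3) (Subtype.ext h2)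
    rwa [Finset.card_sigma] at h1
  refine le_trans h0 ?_
  have hf : ∀ β ∈ B, (A.filter fun α => ∀ j ∈ Lg n r β, α j.castSucc = 0).card ≤
      (if (Lg n r β).card = 1 then Nat.multichoose (n + 1) a else 0) + Nat.multichoose n a := by
    intro β hβ
    have hne : (Lg n r β).Nonempty := by
      by_contra hc
      rw [Finset.not_nonempty_iff_eq_empty] at hc
      have h1 : ∀ j, β j < r := by
        intro j
        by_contra hj
        have h2 : j ∈ Lg n r β := by
          rw [Lg, Finset.mem_filter]
          exact ⟨Finset.mem_univ _, not_lt.1 hj⟩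
        rw [hc] at h2
        exact absurd h2 (Finset.notMem_empty _)
      have h3 : ∑ j, β j = b := (Finset.mem_finsuppAntidiag.1 hβ).1
      have h4 : ∑ j : Fin (n + 1), β j < ∑ _j : Fin (n + 1), r :=
        Finset.sum_lt_sum_of_nonempty Finset.univ_nonempty fun j _ => h1 j
      rw [h3] at h4
      simp at h4
      omega
    have hmap : ∀ Z : Finset (Fin (n + 1)), Z ⊆ Lg n r β →
        (A.filter fun α => ∀ j ∈ Lg n r β, α j.castSucc = 0).card ≤
        Nat.multichoose (n + 2 - Z.card) a := by
      intro Z hZ
      have h1 := card_van n a (Z.map Fin.castSuccEmb)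
      rw [Finset.card_map] at h1
      refine le_trans (Finset.card_le_card ?_) h1
      intro α hα
      rw [Finset.mem_filter] at hα ⊢
      refine ⟨hα.1, ?_⟩
      intro i hi
      rw [Finset.mem_map] at hi
      obtain ⟨j, hj, rfl⟩ := hi
      exact hα.2 j (hZ hj)
    by_cases h1 : (Lg n r β).card = 1
    · rw [if_pos h1]
      have h2 := hmap _ (Finset.Subset.refl _)
      rw [h1] at h2
      have h3 : n + 2 - 1 = n + 1 := by omega
      rw [h3] at h2
      omega
    · rw [if_neg h1, zero_add]
      have h2 : 2 ≤ (Lg n r β).card := by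
        have := hne.card_pos
        omega
      obtain ⟨Z, hZ1, hZ2⟩ := Finset.exists_subset_card_eq h2
      have h3 := hmap Z hZ1
      rw [hZ2] at h3
      have h4 : n + 2 - 2 = n := by omega
      rwa [h4] at h3
  refine le_trans (Finset.sum_le_sum hf) ?_
  rw [Finset.sum_add_distrib, Finset.sum_const, smul_eq_mul, ← Finset.sum_filter, Finset.sum_const,
    smul_eq_mul]
  have h5 := card_one n r b
  have h6 := Nat.mul_le_mul_right (Nat.multichoose (n + 1) a) h5
  exact Nat.add_le_add_right h6 _

end Pool.Agent.H17.PD
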