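import Pool.Agent.H17.PD.Jac

/-!
# MP_ff26cb_ag: the degree of a parametrization
-/

set_option autoImplicit false

namespace Pool.Agent.H17.PD

open MvPolynomial Finset

section Cmp

variable {k : Type} [Field k] {n : ℕ}

theorem pm_prop (D δ : Fin (n + 2) → MvPolynomial (Fin (n + 1)) k) (l : Fin (n + 2))
    (h : ∀ i, D l * δ i = δ l * D i) (a : ℕ) (α : Fin (n + 2) →₀ ℕ) (β : Fin (n + 1) →₀ ℕ)
    (hα : ∑ i, α i = a) : D l ^ a * pm δ α β = δ l ^ a * pm D α β := by
  have h1 : D l ^ a * ∏ i, δ i ^ α i = δ l ^ a * ∏ i, D i ^ α i := by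
    rw [← hα, ← Finset.prod_pow_eq_pow_sum, ← Finset.prod_pow_eq_pow_sum,
      ← Finset.prod_mul_distrib, ← Finset.prod_mul_distrib]
    refine Finset.prod_congr rfl fun i _ => ?_
    rw [← mul_pow, h i, mul_pow]
  rw [pm, pm, ← mul_assoc, h1, mul_assoc]

theorem finrank_cmp (D δ : Fin (n + 2) → MvPolynomial (Fin (n + 1)) k) (l : Fin (n + 2))
    (h : ∀ i, D l * δ i = δ l * D i) (hD : D l ≠ 0) (a b : ℕ) :
    Module.finrank k (Submodule.span k (Set.range fun μ : Ix n a b => pm δ μ.1.1 μ.2.1)) ≤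
    Module.finrank k (Submodule.span k (Set.range fun μ : Ix n a b => pm D μ.1.1 μ.2.1)) := by
  have h1 : Submodule.map (LinearMap.mulLeft k (D l ^ a))
      (Submodule.span k (Set.range fun μ : Ix n a b => pm δ μ.1.1 μ.2.1)) =
      Submodule.map (LinearMap.mulLeft k (δ l ^ a))
      (Submodule.span k (Set.range fun μ : Ix n a b => pm D μ.1.1 μ.2.1)) := by
    rw [Submodule.map_span, Submodule.map_span, ← Set.range_comp, ← Set.range_comp]
    congr 2
    funext μ
    exact pm_prop D δ l h a μ.1.1 μ.2.1 (Finset.mem_finsuppAntidiag.1 μ.1.2).1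
  have hinj : Function.Injective (LinearMap.mulLeft k (D l ^ a)) :=
    fun x y hxy => mul_left_cancel₀ (pow_ne_zero a hD) hxy
  have h2 := (Submodule.equivMapOfInjective _ hinj
    (Submodule.span k (Set.range fun μ : Ix n a b => pm δ μ.1.1 μ.2.1))).finrank_eq
  rw [h2, h1]
  haveI : Module.Finite k
      (Submodule.span k (Set.range fun μ : Ix n a b => pm D μ.1.1 μ.2.1)) :=
    Module.Finite.span_of_finite k (Set.finite_range _)
  exact Submodule.finrank_map_le _ _

end Cmp

section Num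

theorem ch_step (n q : ℕ) : ∀ d : ℕ, (q + (n + 1)).choose (n + 1) + d * (q + n).choose n ≤
    (q + d + (n + 1)).choose (n + 1) := by
  intro d
  induction d with
  | zero => simp
  | succ d ih =>
    have h1 : (q + (d + 1) + (n + 1)).choose (n + 1) =
        (q + d + (n + 1)).choose n + (q + d + (n + 1)).choose (n + 1) := by
      rw [show q + (d + 1) + (n + 1) = (q + d + (n + 1)) + 1 by ring, Nat.choose_succ_succ]
    have h2 : (q + n).choose n ≤ (q + d + (n + 1)).choose n := Nat.choose_le_choose _ (by omega)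
    rw [h1]
    calc _ = ((q + (n + 1)).choose (n + 1) + d * (q + n).choose n) + (q + n).choose n := by ring
      _ ≤ _ := by omega

theorem ch_low (n q : ℕ) : q ^ n ≤ n.factorial * (q + n).choose n := by
  rw [← Nat.ascFactorial_eq_factorial_mul_choose]
  exact le_trans (Nat.pow_le_pow_left (Nat.le_succ q) n) (Nat.pow_succ_le_ascFactorial _ _)

theorem ch_up (n q : ℕ) : n.factorial * (q + n).choose n ≤ (q + n) ^ n := by
  rw [← Nat.ascFactorial_eq_factorial_mul_choose]
  exact Nat.ascFactorial_le_pow_add _ _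

theorem num {n d r c W : ℕ} (hn : 1 ≤ n) (hc : d ≤ c)
    (h : ∀ a : ℕ, (a * (d - 1) + c + (n + 1)).choose (n + 1) ≤
      ((n + 1) * r ^ n * Nat.multichoose (n + 1) a + W * Nat.multichoose n a) +
      (a * (d - 1) + c - d + (n + 1)).choose (n + 1)) :
    d * (d - 1) ^ n ≤ (n + 1) * r ^ n := by
  obtain ⟨e, he⟩ : ∃ e, e = d - 1 := ⟨_, rfl⟩
  rw [← he] at h ⊢
  have h1 : ∀ a : ℕ, d * (a * e) ^ n ≤ (n + 1) * r ^ n * (a + n) ^ n +
      n.factorial * W * (a + n) ^ (n - 1) := by
    intro a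
    have h2 := h a
    obtain ⟨q, hq⟩ : ∃ q, a * e + c = q + d := ⟨a * e + c - d, by omega⟩
    have h3 : a * e ≤ q := by omega
    rw [hq, Nat.add_sub_cancel] at h2
    have h4 := ch_step n q d
    have h5 : d * (q + n).choose n ≤
        (n + 1) * r ^ n * Nat.multichoose (n + 1) a + W * Nat.multichoose n a := by omega
    have h6 : Nat.multichoose (n + 1) a = (a + n).choose n := by
      rw [Nat.multichoose_eq, show n + 1 + a - 1 = a + n by omega, Nat.choose_symm_add]
    have h7 : n.factorial * Nat.multichoose n a ≤ n.factorial * (a + n) ^ (n - 1) := by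
      refine Nat.mul_le_mul_left _ ?_
      obtain ⟨n', rfl⟩ : ∃ n', n = n' + 1 := ⟨n - 1, by omega⟩
      rw [Nat.multichoose_eq, show n' + 1 + a - 1 = a + n' by omega, Nat.choose_symm_add]
      have h8 := ch_up n' a
      have h9 : (a + n').choose n' ≤ n'.factorial * (a + n').choose n' :=
        Nat.le_mul_of_pos_left _ (Nat.factorial_pos _)
      refine le_trans h9 (le_trans h8 ?_)
      rw [show n' + 1 - 1 = n' by omega]
      exact Nat.pow_le_pow_left (by omega) _
    calc d * (a * e) ^ n ≤ d * q ^ n := Nat.mul_le_mul_left _ (Nat.pow_le_pow_left h3 _)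
      _ ≤ d * (n.factorial * (q + n).choose n) := Nat.mul_le_mul_left _ (ch_low n q)
      _ = n.factorial * (d * (q + n).choose n) := by ring
      _ ≤ n.factorial * ((n + 1) * r ^ n * Nat.multichoose (n + 1) a +
          W * Nat.multichoose n a) := Nat.mul_le_mul_left _ h5
      _ = (n + 1) * r ^ n * (n.factorial * (a + n).choose n) +
          W * (n.factorial * Nat.multichoose n a) := by rw [h6]; ring
      _ ≤ (n + 1) * r ^ n * (a + n) ^ n + W * (n.factorial * (a + n) ^ (n - 1)) :=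
          Nat.add_le_add (Nat.mul_le_mul_left _ (ch_up n a)) (Nat.mul_le_mul_left _ h7)
      _ = _ := by ring
  have h2 : ∀ a : ℕ, 1 ≤ a → ((d : ℝ) * (e : ℝ) ^ n) ≤ ((n : ℝ) + 1) * (r : ℝ) ^ n *
      (1 + (n : ℝ) / a) ^ n + (n.factorial : ℝ) * W * (1 + (n : ℝ) / a) ^ (n - 1) * (1 / a) := by
    intro a ha
    have ha' : (0 : ℝ) < a := by exact_mod_cast ha
    have h3 : ((d * (a * e) ^ n : ℕ) : ℝ) ≤ (((n + 1) * r ^ n * (a + n) ^ n +
      n.factorial * W * (a + n) ^ (n - 1) : ℕ) : ℝ) := by exact_mod_cast h1 a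
    push_cast at h3
    have h4 : (a : ℝ) + n = a * (1 + (n : ℝ) / a) := by field_simp
    rw [h4, mul_pow, mul_pow, mul_pow] at h3
    have h5 : (a : ℝ) ^ n = a ^ (n - 1) * a := by
      rw [← pow_succ, Nat.sub_add_cancel hn]
    have h6 : (0 : ℝ) < (a : ℝ) ^ n := pow_pos ha' _
    refine le_of_mul_le_mul_left ?_ h6
    calc (a : ℝ) ^ n * ((d : ℝ) * (e : ℝ) ^ n) = d * (a ^ n * e ^ n) := by ring
      _ ≤ _ := h3
      _ = (a : ℝ) ^ n * (((n : ℝ) + 1) * (r : ℝ) ^ n * (1 + (n : ℝ) / a) ^ n) +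
          (n.factorial : ℝ) * W * (1 + (n : ℝ) / a) ^ (n - 1) * (a ^ (n - 1)) := by ring
      _ = _ := by
          rw [mul_add]
          congr 1
          rw [h5]
          field_simp
  have h3 : Filter.Tendsto (fun a : ℕ => ((n : ℝ) + 1) * (r : ℝ) ^ n *
      (1 + (n : ℝ) / a) ^ n + (n.factorial : ℝ) * W * (1 + (n : ℝ) / a) ^ (n - 1) * (1 / a))
      Filter.atTop (nhds (((n : ℝ) + 1) * (r : ℝ) ^ n * (1 + 0) ^ n +
        (n.factorial : ℝ) * W * (1 + 0) ^ (n - 1) * 0)) := by
    have h4 : Filter.Tendsto (fun a : ℕ => (n : ℝ) / a) Filter.atTop (nhds 0) :=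
      tendsto_const_div_atTop_nhds_zero_nat _
    have h5 : Filter.Tendsto (fun a : ℕ => (1 : ℝ) / a) Filter.atTop (nhds 0) :=
      tendsto_const_div_atTop_nhds_zero_nat _
    have h6 := h4.const_add (1 : ℝ)
    exact ((h6.pow n).const_mul _).add (((h6.pow (n - 1)).const_mul _).mul h5)
  have h4 := ge_of_tendsto h3 (Filter.eventually_atTop.2 ⟨1, fun a ha => h2 a ha⟩)
  simp only [add_zero, one_pow, mul_one, mul_zero] at h4
  have h5 : ((d * e ^ n : ℕ) : ℝ) ≤ (((n + 1) * r ^ n : ℕ) : ℝ) := by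
    push_cast
    exact h4
  exact_mod_cast h5

theorem bern (u : ℕ) : ∀ n : ℕ, (u + n) * u ^ n ≤ u * (u + 1) ^ n := by
  intro n
  induction n with
  | zero => simp
  | succ n ih =>
    calc (u + (n + 1)) * u ^ (n + 1) ≤ (u + 1) * ((u + n) * u ^ n) := by
          rw [pow_succ]
          have : (u + (n + 1)) * (u ^ n * u) ≤ ((u + 1) * (u + n)) * u ^ n := by
            rw [show (u + (n + 1)) * (u ^ n * u) = ((u + (n + 1)) * u) * u ^ n by ring]
            refine Nat.mul_le_mul_right _ ?_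
            nlinarith
          calc _ ≤ _ := this
            _ = _ := by ring
      _ ≤ (u + 1) * (u * (u + 1) ^ n) := Nat.mul_le_mul_left _ ih
      _ = u * (u + 1) ^ (n + 1) := by ring

theorem deg_le {n d m : ℕ} (hn : 1 ≤ n) (hd : 2 ≤ d)
    (h : d * (d - 1) ^ n ≤ (n + 1) * (m - 1) ^ n) : d ≤ m := by
  by_contra hc
  push Not at hc
  obtain ⟨u, rfl⟩ : ∃ u, d = u + 2 := ⟨d - 2, by omega⟩
  have h1 : (m - 1) ^ n ≤ u ^ n := Nat.pow_le_pow_left (by omega) _
  have h2 : (u + 2) * (u + 1) ^ n ≤ (n + 1) * u ^ n := by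
    have h3 : u + 2 - 1 = u + 1 := by omega
    rw [h3] at h
    exact le_trans h (Nat.mul_le_mul_left _ h1)
  rcases Nat.eq_zero_or_pos u with h0 | h0
  · subst h0
    rw [zero_pow (by omega)] at h2
    simp at h2
  · have h4 := bern u n
    have h5 : (u + 2) * ((u + n) * u ^ n) ≤ u * ((n + 1) * u ^ n) :=
      calc _ ≤ (u + 2) * (u * (u + 1) ^ n) := Nat.mul_le_mul_left _ h4
        _ = u * ((u + 2) * (u + 1) ^ n) := by ring
        _ ≤ _ := Nat.mul_le_mul_left _ h2
    have h6 : ((u + 2) * (u + n)) * u ^ n ≤ (u * (n + 1)) * u ^ n := by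
      calc _ = (u + 2) * ((u + n) * u ^ n) := by ring
        _ ≤ _ := h5
        _ = _ := by ring
    have h7 : (u + 2) * (u + n) ≤ u * (n + 1) := Nat.le_of_mul_le_mul_right h6 (pow_pos h0 _)
    nlinarith

end Num

/-- the degree of a dominant parametrization of a smooth hypersurface -/
theorem main {k : Type} [Field k] [IsAlgClosed k] [CharZero k] {n d m : ℕ} (hn : 1 ≤ n)
    (hd : 2 ≤ d) (F : MvPolynomial (Fin (n + 2)) k) (hF : F.IsHomogeneous d)
    (hs : ∀ x : Fin (n + 2) → k, (∀ i, eval x (pderiv i F) = 0) → x = 0)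
    (φ : Fin (n + 2) → MvPolynomial (Fin (n + 1)) k) (hφ : ∀ i, (φ i).IsHomogeneous m)
    (hφF : ∀ Q : MvPolynomial (Fin (n + 2)) k, aeval φ Q = 0 ↔ F ∣ Q) :
    d * (d - 1) ^ n ≤ (n + 1) * (m - 1) ^ n ∧ d ≤ m := by
  classical
  obtain ⟨l, hl⟩ : ∃ l, pderiv l F ≠ 0 := by
    by_contra hc
    push Not at hc
    have h1 := hs (fun _ => 1) fun i => by rw [hc i, map_zero]
    exact one_ne_zero (congrFun h1 0)
  have hD := mnr_ne F l hl φ fun Q hQ => (hφF Q).1 hQ
  set J : Matrix (Fin (n + 2)) (Fin (n + 1)) (MvPolynomial (Fin (n + 1)) k) :=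
    Matrix.of fun i j => pderiv j (φ i) with hJ
  have hm : 1 ≤ m := by
    by_contra hc
    have hm0 : m = 0 := by omega
    subst hm0
    refine hD ?_
    rw [mnr]
    have h1 : J.submatrix l.succAbove id = 0 := by
      ext1 i j
      rw [Matrix.submatrix_apply, hJ, Matrix.of_apply, Matrix.zero_apply]
      have h2 := (hφ (l.succAbove i))
      rw [← totalDegree_zero_iff_isHomogeneous] at h2
      rw [totalDegree_eq_zero_iff_eq_C] at h2
      rw [h2, pderiv_C]
    rw [h1, Matrix.det_zero, mul_zero]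
  have hδ : ∀ j, ∑ i, aeval φ (pderiv i F) * J i j = 0 := by
    intro j
    have h1 := chain φ j F
    rw [(hφF F).2 dvd_rfl, map_zero] at h1
    rw [h1]
    rfl
  have hprop := mnr_prop J (fun i => aeval φ (pderiv i F)) hδ l
  obtain ⟨c0, hc0⟩ := lower F d hF hs φ m hφ fun Q hQ => (hφF Q).1 hQ
  obtain ⟨c, hc⟩ : ∃ c, c = c0 + d + (n + 1) * (m - 1) := ⟨_, rfl⟩
  have hJr : ∀ i j, (J i j).IsHomogeneous (m - 1) := fun i j => (hφ i).pderiv
  have hb : (n + 1) * (m - 1) ≤ m * c := by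
    calc (n + 1) * (m - 1) ≤ c := by omega
      _ = 1 * c := (one_mul c).symm
      _ ≤ m * c := Nat.mul_le_mul_right _ hm
  have h1 := num (n := n) (d := d) (r := m - 1) (c := c)
    (W := (Finset.finsuppAntidiag (Finset.univ : Finset (Fin (n + 1))) (m * c)).card) hn
    (by omega) (by
      intro a
      have h2 := hc0 c (by omega) a
      have h3 := finrank_cmp (mnr J) (fun i => aeval φ (pderiv i F)) l hprop hD a (m * c)
      have h4 := upper J (m - 1) hJr a (m * c)
      have h5 := card_std n (m - 1) a (m * c) hb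
      omega)
  exact ⟨h1, deg_le hn hd h1⟩

end Pool.Agent.H17.PD
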