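import Pool.Agent.H17.PD.Low

/-!
# MP_ff26cb_ag: maximal minors of the Jacobian matrix
-/

set_option autoImplicit false

namespace Pool.Agent.H17.PD

open MvPolynomial Finset

section Pro

variable {T : Type} [CommRing T] {n : ℕ}

/-- a vector orthogonal to the columns is proportional to the minors -/
theorem mnr_prop (J : Matrix (Fin (n + 2)) (Fin (n + 1)) T) (δ : Fin (n + 2) → T)
    (h : ∀ j, ∑ i, δ i * J i j = 0) (l i : Fin (n + 2)) :
    mnr J l * δ i = δ l * mnr J i := by
  classical
  let A : Matrix (Fin (n + 2)) (Fin (n + 2)) T := Matrix.of fun i q =>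
    Fin.cases (if i = l then 1 else 0) (J i) q
  have hA0 : ∀ i, A i 0 = if i = l then 1 else 0 := fun i => rfl
  have hAs : ∀ i q, A i (Fin.succ q) = J i q := fun i q => rfl
  have h1 : A.det = mnr J l := by
    rw [Matrix.det_succ_column_zero, Finset.sum_eq_single l]
    · rw [hA0, if_pos rfl, mul_one, mnr]
      rfl
    · intro p _ hp
      rw [hA0, if_neg hp, mul_zero, zero_mul]
    · intro hc
      exact absurd (Finset.mem_univ _) hc
  have h2 : Matrix.vecMul δ A = Pi.single 0 (δ l) := by
    funext q
    rw [Matrix.vecMul, dotProduct]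
    refine Fin.cases ?_ (fun q => ?_) q
    · simp only [hA0]
      simp
    · simp only [hAs]
      rw [h q, Pi.single_eq_of_ne (Fin.succ_ne_zero q)]
  have h3 : Matrix.vecMul (Matrix.vecMul δ A) A.adjugate = A.det • δ := by
    rw [Matrix.vecMul_vecMul, Matrix.mul_adjugate, Matrix.vecMul_smul, Matrix.vecMul_one]
  have h4 := congrFun h3 i
  rw [h2, Matrix.single_vecMul, Pi.smul_apply, Pi.smul_apply, smul_eq_mul, smul_eq_mul, h1] at h4
  rw [← h4]
  congr 1
  rw [Matrix.row_apply, Matrix.adjugate_fin_succ_eq_det_submatrix, mnr]
  congr 1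

end Pro

section Der

/-- a derivation which kills a subalgebra kills the elements algebraic over it -/
theorem der_alg {k T : Type} [Field k] [CharZero k] [CommRing T] [IsDomain T] [Algebra k T]
    (A : Subalgebra k T) (D : Derivation k T T) (hD : ∀ a ∈ A, D a = 0) (z : T)
    (hz : IsAlgebraic A z) : D z = 0 := by
  let D' : Derivation A T T := Derivation.mk'
    { toFun := D
      map_add' := fun x y => map_add D x y
      map_smul' := fun a x => by
        rw [Subalgebra.smul_def, smul_eq_mul, D.leibniz, hD a.1 a.2, smul_zero, add_zero,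
          smul_eq_mul]
        rfl } (fun x y => D.leibniz x y)
  have hD' : ∀ x, D' x = D x := fun x => rfl
  haveI : CharZero T := charZero_of_injective_algebraMap (algebraMap k T).injective
  haveI : CharZero A := charZero_of_injective_algebraMap (algebraMap k A).injective
  have key : ∀ n : ℕ, ∀ P : Polynomial A, P ≠ 0 → P.natDegree ≤ n → Polynomial.aeval z P = 0 →
      D z = 0 := by
    intro n
    induction n with
    | zero =>
      intro P hP0 hPn hPz
      rw [Polynomial.eq_C_of_natDegree_le_zero hPn, Polynomial.aeval_C] at hPz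
      have h1 : P.coeff 0 = 0 := by
        have h2 : Function.Injective (algebraMap A T) := Subtype.val_injective
        exact h2 (by rw [hPz, map_zero])
      rw [Polynomial.eq_C_of_natDegree_le_zero hPn, h1, Polynomial.C_0] at hP0
      exact absurd rfl hP0
    | succ n ih =>
      intro P hP0 hPn hPz
      by_cases hdeg : P.natDegree = 0
      · rw [Polynomial.eq_C_of_natDegree_le_zero hdeg.le, Polynomial.aeval_C] at hPz
        have h1 : P.coeff 0 = 0 := by
          have h2 : Function.Injective (algebraMap A T) := Subtype.val_injective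
          exact h2 (by rw [hPz, map_zero])
        rw [Polynomial.eq_C_of_natDegree_le_zero hdeg.le, h1, Polynomial.C_0] at hP0
        exact absurd rfl hP0
      · have h1 : Polynomial.aeval z (Polynomial.derivative P) * D z = 0 := by
          have h2 := D'.map_aeval P z
          rw [hPz, map_zero, smul_eq_mul, hD'] at h2
          exact h2.symm
        rcases mul_eq_zero.1 h1 with h2 | h2
        · refine ih (Polynomial.derivative P) ?_ ?_ h2
          · intro h3
            exact hdeg (Polynomial.derivative_eq_zero.1 h3)
          · have := Polynomial.natDegree_derivative_lt hdeg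
            omega
        · exact h2
  obtain ⟨P, hP0, hPz⟩ := hz
  exact key P.natDegree P hP0 le_rfl hPz

/-- chain rule -/
theorem chain {k : Type} [Field k] {σ τ : Type} [Fintype σ] (φ : σ → MvPolynomial τ k) (j : τ)
    (Q : MvPolynomial σ k) :
    pderiv j (aeval φ Q) = ∑ i, aeval φ (pderiv i Q) * pderiv j (φ i) := by
  classical
  induction Q using MvPolynomial.induction_on with
  | C a =>
    rw [aeval_C]
    have h1 : pderiv j (algebraMap k (MvPolynomial τ k) a) = 0 := Derivation.map_algebraMap _ _
    rw [h1]
    symm
    refine Finset.sum_eq_zero fun i _ => ?_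
    rw [pderiv_C, map_zero, zero_mul]
  | add p q hp hq =>
    rw [map_add, map_add, hp, hq, ← Finset.sum_add_distrib]
    refine Finset.sum_congr rfl fun i _ => ?_
    rw [map_add, map_add, add_mul]
  | mul_X p l hp =>
    rw [map_mul, pderiv_mul, hp, aeval_X, Finset.sum_mul]
    have h1 : ∀ i, aeval φ (pderiv i (p * X l)) * pderiv j (φ i) =
        aeval φ (pderiv i p) * pderiv j (φ i) * φ l +
        (if i = l then aeval φ p * pderiv j (φ l) else 0) := by
      intro i
      rw [pderiv_mul, map_add, map_mul, map_mul, aeval_X, pderiv_X]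
      by_cases hi : i = l
      · subst hi
        rw [Pi.single_eq_same, map_one, if_pos rfl]
        ring
      · rw [if_neg hi, Pi.single_eq_of_ne (fun h => hi h.symm), map_zero]
        ring
    rw [Finset.sum_congr rfl fun i _ => h1 i, Finset.sum_add_distrib,
      Finset.sum_ite_eq' Finset.univ, if_pos (Finset.mem_univ _)]

end Der

section Rank

variable {k : Type} [Field k] [CharZero k] {n : ℕ}

/-- the maximal minors of the Jacobian matrix of a dominant parametrization do not vanish -/
theorem mnr_ne (F : MvPolynomial (Fin (n + 2)) k) (l : Fin (n + 2)) (hl : pderiv l F ≠ 0)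
    (φ : Fin (n + 2) → MvPolynomial (Fin (n + 1)) k) (hφF : ∀ Q, aeval φ Q = 0 → F ∣ Q) :
    mnr (Matrix.of fun i j => pderiv j (φ i)) l ≠ 0 := by
  classical
  have hind : AlgebraicIndependent k (fun i : Fin (n + 1) => φ (l.succAbove i)) := by
    rw [algebraicIndependent_iff]
    intro P hP
    have h1 : aeval φ (rename l.succAbove P) = 0 := by
      rw [aeval_rename]
      exact hP
    obtain ⟨R, hR⟩ := hφF _ h1
    by_contra hP0
    have h2 : rename l.succAbove P ≠ 0 := by
      intro h
      exact hP0 (rename_injective _ Fin.succAbove_right_injective (by rw [h, map_zero]))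
    have hF0 : F ≠ 0 := by
      rintro rfl
      rw [zero_mul] at hR
      exact h2 hR
    have hR0 : R ≠ 0 := by
      rintro rfl
      rw [mul_zero] at hR
      exact h2 hR
    have h3 : degreeOf l (rename l.succAbove P) = degreeOf l F + degreeOf l R := by
      rw [hR, degreeOf_mul_eq hF0 hR0]
    have h4 : degreeOf l (rename l.succAbove P) = 0 := by
      rw [degreeOf_eq_sup]
      refine Finset.sup_eq_bot_iff _ _ |>.2 ?_
      intro m hm
      rw [mem_support_iff] at hm
      obtain ⟨u, hu, _⟩ := coeff_rename_ne_zero _ _ _ hm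
      rw [← hu]
      refine Finsupp.mapDomain_of_notMem_range _ _ ?_
      rintro ⟨i, hi⟩
      exact Fin.succAbove_ne l i hi
    have h5 : degreeOf l F ≠ 0 := by
      intro h
      refine hl (pderiv_eq_zero_of_notMem_vars ?_)
      intro hmem
      exact (mem_vars_iff_degreeOf_ne_zero.1 hmem) h
    omega
  have htr : IsTranscendenceBasis k (fun i : Fin (n + 1) => φ (l.succAbove i)) := by
    refine hind.isTranscendenceBasis_of_trdeg_le_of_finite ?_
    rw [MvPolynomial.trdeg_of_isDomain]
    simp
  have halg := htr.isAlgebraic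
  rw [mnr]
  refine mul_ne_zero (pow_ne_zero _ (neg_ne_zero.2 one_ne_zero)) ?_
  intro hdet
  obtain ⟨c, hc0, hc⟩ := Matrix.exists_mulVec_eq_zero_iff.2 hdet
  refine hc0 ?_
  let D : Derivation k (MvPolynomial (Fin (n + 1)) k) (MvPolynomial (Fin (n + 1)) k) :=
    ∑ j, c j • pderiv j
  have hDa : ∀ f, D f = ∑ j, c j * pderiv j f := by
    intro f
    have h1 : ∀ s : Finset (Fin (n + 1)), (∑ j ∈ s, c j • pderiv j :
        Derivation k (MvPolynomial (Fin (n + 1)) k) (MvPolynomial (Fin (n + 1)) k)) f =
        ∑ j ∈ s, c j * pderiv j f := by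
      intro s
      induction s using Finset.induction_on with
      | empty => rw [Finset.sum_empty, Finset.sum_empty]; rfl
      | insert j s hj ih =>
        rw [Finset.sum_insert hj, Finset.sum_insert hj, Derivation.add_apply, ih,
          Derivation.smul_apply, smul_eq_mul]
    exact h1 _
  have hDx : ∀ i : Fin (n + 1), D (φ (l.succAbove i)) = 0 := by
    intro i
    have h1 := congrFun hc i
    rw [Matrix.mulVec, dotProduct] at h1
    rw [hDa]
    rw [Pi.zero_apply] at h1
    rw [← h1]
    refine Finset.sum_congr rfl fun j _ => ?_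
    rw [mul_comm]
    rfl
  have hDA : ∀ a ∈ Algebra.adjoin k (Set.range fun i : Fin (n + 1) => φ (l.succAbove i)),
      D a = 0 := by
    intro a ha
    refine Algebra.adjoin_induction (p := fun x _ => D x = 0) ?_ ?_ ?_ ?_ ha
    · rintro _ ⟨i, rfl⟩
      exact hDx i
    · intro r
      exact D.map_algebraMap r
    · intro x y _ _ hx hy
      rw [map_add, hx, hy, add_zero]
    · intro x y _ _ hx hy
      rw [D.leibniz, hx, hy, smul_zero, smul_zero, add_zero]
  funext j
  have h2 := der_alg _ D hDA (X j) (halg.isAlgebraic _)
  rw [hDa, Finset.sum_eq_single j] at h2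
  · rw [pderiv_X_self, mul_one] at h2
    exact h2
  · intro i _ hi
    rw [pderiv_X_of_ne (fun h => hi h.symm), mul_zero]
  · intro h
    exact absurd (Finset.mem_univ _) h

end Rank

end Pool.Agent.H17.PD
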