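import Mathlib

/-!
# MP_ff26cb_ag: linear algebra for the degree of parametrizations
-/

set_option autoImplicit false

namespace Pool.Agent.H17.PD

open Finset

/-- for almost all `η` the relations `e μ + η ∑ R μ ν e ν = 0`, `μ ∉ S`, express all `e μ` by the
`e ν` with `ν ∈ S` -/
theorem span_std {k ι : Type} [Field k] [Fintype ι] [DecidableEq ι] (S : Finset ι)
    (R : ι → ι → k) : ∃ p : Polynomial k, p ≠ 0 ∧ ∀ η : k, p.eval η ≠ 0 →
    ∀ (M : Type) [AddCommGroup M] [Module k M] (e : ι → M),
    (∀ μ, μ ∉ S → e μ + η • ∑ ν, R μ ν • e ν = 0) →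
    ∀ μ, e μ ∈ Submodule.span k (e '' (S : Set ι)) := by
  classical
  let A : Matrix ι ι (Polynomial k) := Matrix.of fun μ ν => (if μ = ν then 1 else 0) +
    Polynomial.X * Polynomial.C (if μ ∈ S ∨ ν ∈ S then 0 else R μ ν)
  have hev : ∀ η : k, (A.det).eval η = Matrix.det (Matrix.of fun μ ν =>
      (if μ = ν then (1 : k) else 0) + η * (if μ ∈ S ∨ ν ∈ S then 0 else R μ ν)) := by
    intro η
    have h := (Polynomial.evalRingHom η).map_det A
    rw [Polynomial.coe_evalRingHom] at h
    rw [h]
    congr 1
    ext μ ν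
    rw [RingHom.mapMatrix_apply, Matrix.map_apply]
    simp only [A, Polynomial.coe_evalRingHom, Matrix.of_apply,
      Polynomial.eval_add, Polynomial.eval_mul, Polynomial.eval_X, Polynomial.eval_C]
    split_ifs <;> simp
  refine ⟨A.det, ?_, ?_⟩
  · intro h0
    have h1 := hev 0
    rw [h0, Polynomial.eval_zero] at h1
    have h2 : (Matrix.of fun μ ν => (if μ = ν then (1 : k) else 0) +
      0 * (if μ ∈ S ∨ ν ∈ S then 0 else R μ ν) : Matrix ι ι k) = 1 := by
      ext μ ν
      rw [Matrix.of_apply, zero_mul, add_zero, Matrix.one_apply]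
    rw [h2, Matrix.det_one] at h1
    exact zero_ne_one h1
  · intro η hη M _ _ e he
    rw [hev] at hη
    set B : Matrix ι ι k := Matrix.of fun μ ν => (if μ = ν then (1 : k) else 0) +
      η * (if μ ∈ S ∨ ν ∈ S then 0 else R μ ν) with hB
    have hunit : IsUnit B.det := isUnit_iff_ne_zero.2 hη
    set W := Submodule.span k (e '' (S : Set ι)) with hW
    let f : ι → M ⧸ W := fun μ => W.mkQ (e μ)
    have hfS : ∀ ν ∈ S, f ν = 0 := by
      intro ν hν
      exact (Submodule.Quotient.mk_eq_zero W).2 (Submodule.subset_span ⟨ν, hν, rfl⟩)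
    have hBf : ∀ μ, ∑ ν, B μ ν • f ν = 0 := by
      intro μ
      have h1 : ∑ ν, B μ ν • f ν = f μ + η • ∑ ν, (if μ ∈ S ∨ ν ∈ S then 0 else R μ ν) • f ν := by
        rw [Finset.smul_sum]
        have h2 : ∀ ν, B μ ν • f ν = (if μ = ν then f ν else 0) +
            η • ((if μ ∈ S ∨ ν ∈ S then 0 else R μ ν) • f ν) := by
          intro ν
          rw [hB, Matrix.of_apply, add_smul, mul_smul]
          congr 1
          split_ifs <;> simp
        rw [Finset.sum_congr rfl fun ν _ => h2 ν, Finset.sum_add_distrib,
          Finset.sum_ite_eq Finset.univ μ, if_pos (Finset.mem_univ _)]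
      rw [h1]
      by_cases hμ : μ ∈ S
      · rw [hfS μ hμ, zero_add]
        have h3 : ∀ ν, (if μ ∈ S ∨ ν ∈ S then (0 : k) else R μ ν) • f ν = 0 := by
          intro ν
          rw [if_pos (Or.inl hμ), zero_smul]
        rw [Finset.sum_congr rfl fun ν _ => h3 ν, Finset.sum_const_zero, smul_zero]
      · have h3 : ∀ ν, (if μ ∈ S ∨ ν ∈ S then (0 : k) else R μ ν) • f ν = R μ ν • f ν := by
          intro ν
          by_cases hν : ν ∈ S
          · rw [hfS ν hν, smul_zero, smul_zero]
          · rw [if_neg (by tauto)]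
        rw [Finset.sum_congr rfl fun ν _ => h3 ν]
        have h4 := congrArg W.mkQ (he μ hμ)
        rw [map_add, map_smul, map_sum, map_zero] at h4
        simp only [map_smul] at h4
        exact h4
    intro μ
    have h5 : f μ = 0 := by
      have h6 : ∑ ρ, B⁻¹ μ ρ • ∑ ν, B ρ ν • f ν = f μ := by
        simp_rw [Finset.smul_sum, smul_smul]
        rw [Finset.sum_comm]
        have h7 : ∀ ν, ∑ ρ, (B⁻¹ μ ρ * B ρ ν) • f ν = (if μ = ν then f ν else 0) := by
          intro ν
          rw [← Finset.sum_smul]
          have h8 : ∑ ρ, B⁻¹ μ ρ * B ρ ν = (B⁻¹ * B) μ ν := by rw [Matrix.mul_apply]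
          rw [h8, Matrix.nonsing_inv_mul B hunit, Matrix.one_apply]
          split_ifs <;> simp
        rw [Finset.sum_congr rfl fun ν _ => h7 ν, Finset.sum_ite_eq Finset.univ μ,
          if_pos (Finset.mem_univ _)]
      rw [← h6]
      refine Finset.sum_eq_zero fun ρ _ => ?_
      rw [hBf ρ, smul_zero]
    exact (Submodule.Quotient.mk_eq_zero W).1 h5

/-- linear independence at `0` implies linear independence at almost all points -/
theorem indep_spec {k ι T : Type} [Field k] [Fintype ι] [CommRing T] [Algebra k T]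
    (v : ι → Polynomial T) (h : LinearIndependent k fun i => (v i).eval 0) :
    ∃ p : Polynomial k, p ≠ 0 ∧ ∀ s : k, p.eval s ≠ 0 →
    LinearIndependent k fun i => (v i).eval (algebraMap k T s) := by
  classical
  obtain ⟨g, hg⟩ := LinearMap.exists_leftInverse_of_injective
    (Fintype.linearCombination k (fun i => (v i).eval 0))
    (LinearMap.ker_eq_bot.2 (linearIndependent_iff_injective_fintypeLinearCombination.1 h))
  have hgi : ∀ i, g ((v i).eval 0) = Pi.single i 1 := by
    intro i
    have h1 := LinearMap.congr_fun hg (Pi.single i 1)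
    rw [LinearMap.comp_apply, Fintype.linearCombination_apply_single, one_smul] at h1
    exact h1
  let q : Matrix ι ι (Polynomial k) := Matrix.of fun i j =>
    ∑ l ∈ (v i).support, Polynomial.C (g ((v i).coeff l) j) * Polynomial.X ^ l
  have hq : ∀ s i j, (q i j).eval s = g ((v i).eval (algebraMap k T s)) j := by
    intro s i j
    have h1 : (v i).eval (algebraMap k T s) = ∑ l ∈ (v i).support, s ^ l • (v i).coeff l := by
      rw [Polynomial.eval_eq_sum, Polynomial.sum_def]
      refine Finset.sum_congr rfl fun l _ => ?_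
      rw [← map_pow, Algebra.smul_def, mul_comm]
    have h2 : q i j = ∑ l ∈ (v i).support, Polynomial.C (g ((v i).coeff l) j) *
      Polynomial.X ^ l := rfl
    rw [h1, h2, map_sum, Finset.sum_apply, Polynomial.eval_finsetSum]
    refine Finset.sum_congr rfl fun l _ => ?_
    rw [Polynomial.eval_mul, Polynomial.eval_C, Polynomial.eval_pow, Polynomial.eval_X, map_smul,
      Pi.smul_apply, smul_eq_mul, mul_comm]
  have hdet : ∀ s, (q.det).eval s =
      Matrix.det (Matrix.of fun i j => g ((v i).eval (algebraMap k T s)) j) := by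
    intro s
    have h1 := (Polynomial.evalRingHom s).map_det q
    rw [Polynomial.coe_evalRingHom] at h1
    rw [h1]
    congr 1
    ext i j
    rw [RingHom.mapMatrix_apply, Matrix.map_apply, Polynomial.coe_evalRingHom, hq, Matrix.of_apply]
  refine ⟨q.det, ?_, ?_⟩
  · intro h0
    have h1 := hdet 0
    rw [h0, Polynomial.eval_zero, map_zero] at h1
    have h2 : (Matrix.of fun i j => g ((v i).eval 0) j : Matrix ι ι k) = 1 := by
      ext i j
      rw [Matrix.of_apply, hgi, Matrix.one_apply, Pi.single_apply]
      by_cases hij : i = j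
      · rw [if_pos hij.symm, if_pos hij]
      · rw [if_neg (fun h => hij h.symm), if_neg hij]
    rw [h2, Matrix.det_one] at h1
    exact zero_ne_one h1
  · intro s hs
    rw [hdet] at hs
    rw [Fintype.linearIndependent_iff]
    intro c hc
    have h1 : Matrix.vecMul c (Matrix.of fun i j => g ((v i).eval (algebraMap k T s)) j) = 0 := by
      ext j
      have h2 := congrFun (congrArg g hc) j
      rw [map_sum, Finset.sum_apply] at h2
      rw [Matrix.vecMul, dotProduct]
      simp only [Matrix.of_apply]
      simp only [map_smul, Pi.smul_apply, smul_eq_mul, map_zero] at h2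
      exact h2
    have h3 := Matrix.eq_zero_of_vecMul_eq_zero hs h1
    intro i
    exact congrFun h3 i

/-- the dimension inequality -/
theorem dim_le {k ι T : Type} [Field k] [Infinite k] [Fintype ι] [DecidableEq ι] [CommRing T]
    [Algebra k T] (S : Finset ι) (R : ι → ι → k) (v : ι → Polynomial T)
    (h : ∀ (s : k) (μ : ι), μ ∉ S → s • (v μ).eval (algebraMap k T s) +
      ∑ ν, R μ ν • (v ν).eval (algebraMap k T s) = 0) :
    Module.finrank k (Submodule.span k (Set.range fun μ => (v μ).eval 0)) ≤ S.card := by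
  classical
  obtain ⟨κ, a, ha, hspan, hli⟩ := exists_linearIndependent' k (fun μ => (v μ).eval 0)
  haveI : Finite κ := Finite.of_injective a ha
  haveI := Fintype.ofFinite κ
  obtain ⟨p2, hp2, h2⟩ := indep_spec (fun j : κ => v (a j)) hli
  obtain ⟨p1, hp1, h1⟩ := span_std S R
  obtain ⟨s, hs⟩ : ∃ s : k, s ∉ ((insert 0 (p2.roots.toFinset ∪
      (p1.roots.toFinset.image fun z => z⁻¹)) : Finset k) : Set k) :=
    Set.Infinite.exists_notMem_finset Set.infinite_univ _ |>.imp fun _ h => h.2
  rw [Finset.mem_coe, Finset.mem_insert, Finset.mem_union, Finset.mem_image] at hs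
  push Not at hs
  obtain ⟨hs0, hs2, hs1⟩ := hs
  have hps2 : p2.eval s ≠ 0 := by
    intro h0
    exact hs2 (by rw [Multiset.mem_toFinset, Polynomial.mem_roots hp2]; exact h0)
  have hps1 : p1.eval s⁻¹ ≠ 0 := by
    intro h0
    exact hs1 s⁻¹ (by rw [Multiset.mem_toFinset, Polynomial.mem_roots hp1]; exact h0) (inv_inv s)
  have h3 := h2 s hps2
  have h4 := h1 s⁻¹ hps1 T (fun μ => (v μ).eval (algebraMap k T s)) (by
    intro μ hμ
    have h5 := congrArg (fun z => s⁻¹ • z) (h s μ hμ)
    simp only [smul_add, smul_smul, smul_zero, inv_mul_cancel₀ hs0, one_smul] at h5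
    exact h5)
  have h6 : Module.finrank k (Submodule.span k (Set.range fun μ => (v μ).eval 0)) =
      Fintype.card κ := by
    rw [← hspan]
    exact finrank_span_eq_card hli
  rw [h6]
  have h7 : Submodule.span k (Set.range fun j : κ => (v (a j)).eval (algebraMap k T s)) ≤
      Submodule.span k ((fun μ => (v μ).eval (algebraMap k T s)) '' (S : Set ι)) := by
    rw [Submodule.span_le]
    rintro _ ⟨j, rfl⟩
    exact h4 (a j)
  have h8 : Fintype.card κ =
      Module.finrank k (Submodule.span k (Set.range fun j : κ => (v (a j)).eval (algebraMap k T s))) :=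
    (finrank_span_eq_card h3).symm
  rw [h8]
  have h9 : ((fun μ => (v μ).eval (algebraMap k T s)) '' (S : Set ι)) =
      ((S.image fun μ => (v μ).eval (algebraMap k T s) : Finset T) : Set T) := by
    rw [Finset.coe_image]
  haveI : Module.Finite k (Submodule.span k
      ((fun μ => (v μ).eval (algebraMap k T s)) '' (S : Set ι))) := by
    rw [h9]
    infer_instance
  calc _ ≤ Module.finrank k (Submodule.span k
        ((fun μ => (v μ).eval (algebraMap k T s)) '' (S : Set ι))) := Submodule.finrank_mono h7
    _ ≤ (S.image fun μ => (v μ).eval (algebraMap k T s)).card := by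
        rw [h9]
        exact finrank_span_finset_le_card _
    _ ≤ S.card := Finset.card_image_le

end Pool.Agent.H17.PD
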