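import Pool.Agent.H17.PD.Cnt

/-!
# MP_ff26cb_ag: lower bound for the products of the partial derivatives and monomials
-/

set_option autoImplicit false

namespace Pool.Agent.H17.PD

open MvPolynomial Finset

section Span

variable {k : Type} [Field k] {N : ℕ}

/-- forms without common zero: the powers of the variables lie in the ideal -/
theorem pow_mem [IsAlgClosed k] (G : Fin N → MvPolynomial (Fin N) k)
    (hG : ∀ x : Fin N → k, (∀ i, eval x (G i) = 0) → x = 0) :
    ∃ M : ℕ, ∀ i, (X i : MvPolynomial (Fin N) k) ^ M ∈ Ideal.span (Set.range G) := by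
  have hrad : ∀ i, (X i : MvPolynomial (Fin N) k) ∈ (Ideal.span (Set.range G)).radical := by
    intro i
    rw [← vanishingIdeal_zeroLocus_eq_radical (K := k), mem_vanishingIdeal_iff]
    intro x hx
    have h3 : x = 0 := by
      refine hG x fun j => ?_
      have h7 := hx (G j) (Ideal.subset_span ⟨j, rfl⟩)
      rw [aeval_eq_eval] at h7
      exact h7
    rw [h3]
    simp
  have hN : ∀ i, ∃ M, (X i : MvPolynomial (Fin N) k) ^ M ∈ Ideal.span (Set.range G) :=
    fun i => hrad i
  choose M hM using hN
  refine ⟨∑ i, M i, fun j => ?_⟩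
  rw [← Nat.sub_add_cancel (Finset.single_le_sum (f := M)
    (fun _ _ => Nat.zero_le _) (Finset.mem_univ j)), pow_add]
  exact Ideal.mul_mem_left _ _ (hM j)

/-- all forms of large degree lie in the ideal -/
theorem deg_mem [IsAlgClosed k] (G : Fin N → MvPolynomial (Fin N) k)
    (hG : ∀ x : Fin N → k, (∀ i, eval x (G i) = 0) → x = 0) :
    ∃ c0 : ℕ, ∀ K, c0 ≤ K → ∀ Q : MvPolynomial (Fin N) k, Q.IsHomogeneous K →
      Q ∈ Ideal.span (Set.range G) := by
  obtain ⟨M, hM⟩ := pow_mem G hG
  refine ⟨N * M + 1, fun K hK Q hQ => ?_⟩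
  rw [Q.as_sum]
  refine Ideal.sum_mem _ fun β hβ => ?_
  have h2 := hQ (mem_support_iff.1 hβ)
  rw [Finsupp.weight_apply, Finsupp.sum_fintype _ _ (by simp)] at h2
  have h3 : ∑ i, β i = K := by
    rw [← h2]
    exact Finset.sum_congr rfl fun i _ => by simp
  obtain ⟨i, hi⟩ : ∃ i, M ≤ β i := by
    by_contra hc
    push Not at hc
    have h4 : ∑ i, β i ≤ ∑ _i : Fin N, M := Finset.sum_le_sum fun i _ => (hc i).le
    rw [h3] at h4
    simp at h4
    omega
  have h5 : monomial β (coeff β Q) = monomial (β - Finsupp.single i M) (coeff β Q) * X i ^ M := by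
    rw [X_pow_eq_monomial, monomial_mul, mul_one, tsub_add_cancel_of_le]
    rw [Finsupp.single_le_iff]
    exact hi
  rw [h5]
  exact Ideal.mul_mem_left _ _ (hM i)

/-- homogeneous cofactors -/
theorem step_mem (G : Fin N → MvPolynomial (Fin N) k) (e : ℕ) (hGe : ∀ i, (G i).IsHomogeneous e)
    (K' : ℕ) (Q : MvPolynomial (Fin N) k) (hQ : Q.IsHomogeneous (K' + e))
    (hm : Q ∈ Ideal.span (Set.range G)) :
    ∃ h : Fin N → MvPolynomial (Fin N) k, (∀ i, (h i).IsHomogeneous K') ∧
      Q = ∑ i, h i * G i := by
  rw [Ideal.mem_span_range_iff_exists_fun] at hm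
  obtain ⟨c, hc⟩ := hm
  refine ⟨fun i => homogeneousComponent K' (c i), fun i => homogeneousComponent_isHomogeneous _ _,
    ?_⟩
  have h1 : Q = homogeneousComponent (K' + e) Q := by
    rw [homogeneousComponent_of_mem hQ, if_pos rfl]
  rw [h1, ← hc, map_sum]
  refine Finset.sum_congr rfl fun i _ => ?_
  have h2 : c i * G i = ∑ l ∈ Finset.range ((c i).totalDegree + 1),
      homogeneousComponent l (c i) * G i := by
    rw [← Finset.sum_mul, sum_homogeneousComponent]
  have h3 : ∀ l, homogeneousComponent (K' + e) (homogeneousComponent l (c i) * G i) =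
      if l = K' then homogeneousComponent l (c i) * G i else 0 := by
    intro l
    have h4 : (homogeneousComponent l (c i) * G i).IsHomogeneous (l + e) :=
      (homogeneousComponent_isHomogeneous _ _).mul (hGe i)
    rw [homogeneousComponent_of_mem h4]
    by_cases hl : l = K'
    · rw [if_pos (by omega), if_pos hl]
    · rw [if_neg (by omega), if_neg hl]
  rw [h2, map_sum, Finset.sum_congr rfl fun l _ => h3 l, Finset.sum_ite_eq']
  split_ifs with h5
  · rfl
  · rw [Finset.mem_range] at h5
    push Not at h5
    have h6 : homogeneousComponent K' (c i) = 0 := homogeneousComponent_eq_zero _ _ (by omega)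
    simp only [h6, zero_mul]

/-- forms of large degree are combinations of products of `a` of the `G i` -/
theorem span_pow [IsAlgClosed k] (G : Fin N → MvPolynomial (Fin N) k) (e : ℕ)
    (hGe : ∀ i, (G i).IsHomogeneous e)
    (hG : ∀ x : Fin N → k, (∀ i, eval x (G i) = 0) → x = 0) :
    ∃ c0 : ℕ, ∀ c, c0 ≤ c → ∀ (a : ℕ) (Q : MvPolynomial (Fin N) k),
      Q.IsHomogeneous (a * e + c) → Q ∈ Submodule.span k {R | ∃ (α : Fin N →₀ ℕ)
        (γ : MvPolynomial (Fin N) k), ∑ i, α i = a ∧ γ.IsHomogeneous c ∧
        R = (∏ i, G i ^ α i) * γ} := by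
  classical
  obtain ⟨c0, hc0⟩ := deg_mem G hG
  refine ⟨c0, fun c hc a => ?_⟩
  induction a with
  | zero =>
    intro Q hQ
    rw [zero_mul, zero_add] at hQ
    refine Submodule.subset_span ⟨0, Q, by simp, hQ, by simp⟩
  | succ a ih =>
    intro Q hQ
    have h1 : (a + 1) * e + c = (a * e + c) + e := by ring
    rw [h1] at hQ
    obtain ⟨h, hh, hQh⟩ := step_mem G e hGe (a * e + c) Q hQ
      (hc0 _ (by omega) Q hQ)
    rw [hQh]
    refine Submodule.sum_mem _ fun i _ => ?_
    have h2 := ih (h i) (hh i)
    refine Submodule.span_induction (p := fun x _ => x * G i ∈ Submodule.span k {R |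
      ∃ (α : Fin N →₀ ℕ) (γ : MvPolynomial (Fin N) k), ∑ i, α i = a + 1 ∧ γ.IsHomogeneous c ∧
        R = (∏ i, G i ^ α i) * γ}) ?_ ?_ ?_ ?_ h2
    · rintro _ ⟨α, γ, hα, hγ, rfl⟩
      refine Submodule.subset_span ⟨α + Finsupp.single i 1, γ, ?_, hγ, ?_⟩
      · simp only [Finsupp.add_apply]
        rw [Finset.sum_add_distrib, hα]
        congr 1
        rw [Finset.sum_eq_single i]
        · rw [Finsupp.single_eq_same]
        · intro l _ hl
          rw [Finsupp.single_eq_of_ne hl]
        · intro h
          exact absurd (Finset.mem_univ _) h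
      · simp only [Finsupp.add_apply, pow_add]
        rw [Finset.prod_mul_distrib]
        have h3 : ∏ l, (G l) ^ ((Finsupp.single i 1 : Fin N →₀ ℕ) l) = G i := by
          rw [Finset.prod_eq_single i]
          · rw [Finsupp.single_eq_same, pow_one]
          · intro l _ hl
            rw [Finsupp.single_eq_of_ne hl, pow_zero]
          · intro h
            exact absurd (Finset.mem_univ _) h
        rw [h3]
        ring
    · rw [zero_mul]
      exact Submodule.zero_mem _
    · intro x y _ _ hx hy
      rw [add_mul]
      exact Submodule.add_mem _ hx hy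
    · intro z x _ hx
      rw [smul_mul_assoc]
      exact Submodule.smul_mem _ _ hx

end Span

/-- The dimension of the space of forms of degree `w` (after H15.EGH.Dim). -/
theorem finrank_homog (K : Type) [Field K] (r w : ℕ) :
    Module.finrank K (homogeneousSubmodule (Fin (r + 1)) K w) = (w + r).choose r := by
  classical
  have hcard : Nat.card {d : Fin (r + 1) →₀ ℕ // d.degree = w} = (w + r).choose r := by
    have h1 := Finset.card_finsuppAntidiag_nat_eq_choose
      (s := (Finset.univ : Finset (Fin (r + 1)))) w
    rw [Finset.card_univ, Fintype.card_fin] at h1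
    have h2 : r + 1 + w - 1 = w + r := by omega
    rw [h2, Nat.choose_symm_add] at h1
    rw [← h1]
    apply Nat.subtype_card
    intro d
    rw [Finset.mem_finsuppAntidiag, Finsupp.degree_eq_sum]
    simp
  rw [← hcard]
  let A : Set (Fin (r + 1) →₀ ℕ) := {d | d.degree = w}
  have hfin : A.Finite := (Finsupp.finite_of_degree_le w).subset fun d hd => le_of_eq hd
  have : Fintype A := hfin.fintype
  have h1 : homogeneousSubmodule (Fin (r + 1)) K w =
      Submodule.span K (Set.range fun p : A => basisMonomials (Fin (r + 1)) K p) := by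
    have h2 : (Set.range fun p : A => basisMonomials (Fin (r + 1)) K p) =
        basisMonomials (Fin (r + 1)) K '' A := by
      ext x; simp
    rw [h2]
    ext v
    rw [Module.Basis.mem_span_image, mem_homogeneousSubmodule]
    constructor
    · intro h p hp
      rw [Finset.mem_coe, Finsupp.mem_support_iff] at hp
      have h3 := h hp
      change p.degree = w
      rw [← h3, Finsupp.degree_eq_weight_one]
      rfl
    · intro h m hm
      have h4 : m ∈ A := by
        apply h
        rw [Finset.mem_coe, Finsupp.mem_support_iff]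
        exact hm
      rw [← (show m.degree = w from h4), Finsupp.degree_eq_weight_one]
      rfl
  rw [h1, finrank_span_eq_card]
  · rw [← Nat.card_eq_fintype_card]
    rfl
  · exact (basisMonomials (Fin (r + 1)) K).linearIndependent.comp _ Subtype.val_injective

theorem finite_homog (K : Type) [Field K] (r w : ℕ) :
    Module.Finite K (homogeneousSubmodule (Fin (r + 1)) K w) := by
  refine Module.finite_of_finrank_pos ?_
  rw [finrank_homog]
  exact Nat.choose_pos (by omega)

section Lower

variable {k : Type} [Field k] {n : ℕ}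

/-- the lower bound -/
theorem lower [IsAlgClosed k] (F : MvPolynomial (Fin (n + 2)) k) (d : ℕ) (hF : F.IsHomogeneous d)
    (hs : ∀ x : Fin (n + 2) → k, (∀ i, eval x (pderiv i F) = 0) → x = 0)
    (φ : Fin (n + 2) → MvPolynomial (Fin (n + 1)) k) (m : ℕ) (hφ : ∀ i, (φ i).IsHomogeneous m)
    (hφF : ∀ Q, aeval φ Q = 0 → F ∣ Q) :
    ∃ c0 : ℕ, ∀ c, c0 ≤ c → ∀ a : ℕ, (a * (d - 1) + c + (n + 1)).choose (n + 1) ≤
      Module.finrank k (Submodule.span k (Set.range fun μ : Ix n a (m * c) =>
        pm (fun i => aeval φ (pderiv i F)) μ.1.1 μ.2.1)) +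
      (a * (d - 1) + c - d + (n + 1)).choose (n + 1) := by
  classical
  obtain ⟨c0, hc0⟩ := span_pow (fun i => pderiv i F) (d - 1) (fun i => hF.pderiv) hs
  refine ⟨c0 + d, fun c hc a => ?_⟩
  set K := a * (d - 1) + c with hK
  set E := Submodule.span k (Set.range fun μ : Ix n a (m * c) =>
        pm (fun i => aeval φ (pderiv i F)) μ.1.1 μ.2.1) with hE
  haveI : Module.Finite k (homogeneousSubmodule (Fin (n + 2)) k K) := finite_homog k (n + 1) K
  let Θ : homogeneousSubmodule (Fin (n + 2)) k K →ₗ[k] MvPolynomial (Fin (n + 1)) k :=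
    (aeval φ : MvPolynomial (Fin (n + 2)) k →ₐ[k] _).toLinearMap ∘ₗ
      (homogeneousSubmodule (Fin (n + 2)) k K).subtype
  have hrange : LinearMap.range Θ ≤ E := by
    rintro _ ⟨Q, rfl⟩
    have h1 := hc0 c (by omega) a Q.1 Q.2
    have h2 : ∀ x ∈ Submodule.span k {R | ∃ (α : Fin (n + 2) →₀ ℕ)
        (γ : MvPolynomial (Fin (n + 2)) k), ∑ i, α i = a ∧ γ.IsHomogeneous c ∧
        R = (∏ i, (pderiv i F) ^ α i) * γ}, aeval φ x ∈ E := by
      intro x hx
      refine Submodule.span_induction (p := fun x _ => aeval φ x ∈ E) ?_ ?_ ?_ ?_ hx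
      · rintro _ ⟨α, γ, hα, hγ, rfl⟩
        rw [map_mul, map_prod]
        have h3 : (aeval φ γ).IsHomogeneous (m * c) := hγ.aeval φ hφ
        rw [(aeval φ γ).as_sum, Finset.mul_sum]
        refine Submodule.sum_mem _ fun β hβ => ?_
        have h4 : (∏ i, aeval φ ((pderiv i) F ^ α i)) * monomial β (coeff β (aeval φ γ)) =
            coeff β (aeval φ γ) • pm (fun i => aeval φ (pderiv i F)) α β := by
          rw [pm, ← mul_smul_comm, smul_monomial, smul_eq_mul, mul_one]
          congr 1
          exact Finset.prod_congr rfl fun i _ => map_pow _ _ _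
        rw [h4]
        refine Submodule.smul_mem _ _ (Submodule.subset_span ⟨(⟨α, ?_⟩, ⟨β, ?_⟩), rfl⟩)
        · rw [Finset.mem_finsuppAntidiag]
          exact ⟨hα, Finset.subset_univ _⟩
        · rw [Finset.mem_finsuppAntidiag]
          refine ⟨?_, Finset.subset_univ _⟩
          have h5 := h3 (mem_support_iff.1 hβ)
          rw [Finsupp.weight_apply, Finsupp.sum_fintype _ _ (by simp)] at h5
          rw [← h5]
          exact Finset.sum_congr rfl fun i _ => by simp
      · rw [map_zero]
        exact Submodule.zero_mem _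
      · intro x y _ _ hx hy
        rw [map_add]
        exact Submodule.add_mem _ hx hy
      · intro z x _ hx
        rw [map_smul]
        exact Submodule.smul_mem _ _ hx
    exact h2 Q.1 h1
  have hker : Module.finrank k (LinearMap.ker Θ) ≤
      (K - d + (n + 1)).choose (n + 1) := by
    rw [← finrank_homog k (n + 1) (K - d)]
    haveI : Module.Finite k (homogeneousSubmodule (Fin (n + 2)) k (K - d)) :=
      finite_homog k (n + 1) (K - d)
    have hdK : d ≤ K := by omega
    let mu : homogeneousSubmodule (Fin (n + 2)) k (K - d) →ₗ[k]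
        homogeneousSubmodule (Fin (n + 2)) k K :=
      { toFun := fun R => ⟨F * R.1, by
          have h := hF.mul R.2
          have h2 : d + (K - d) = K := by omega
          rw [h2] at h
          exact h⟩
        map_add' := fun R R' => Subtype.ext (mul_add _ _ _)
        map_smul' := fun z R => Subtype.ext (mul_smul_comm _ _ _) }
    have h1 : LinearMap.ker Θ ≤ LinearMap.range mu := by
      intro Q hQ
      obtain ⟨R, hR⟩ := hφF Q.1 (LinearMap.mem_ker.1 hQ)
      have h2 : (homogeneousComponent (K - d) R) * F = Q.1 := by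
        have h3 : Q.1 = homogeneousComponent K Q.1 := by
          rw [homogeneousComponent_of_mem Q.2, if_pos rfl]
        rw [h3, hR]
        have h4 : F * R = ∑ l ∈ Finset.range (R.totalDegree + 1),
            F * homogeneousComponent l R := by
          rw [← Finset.mul_sum, sum_homogeneousComponent]
        rw [h4, map_sum]
        have h5 : ∀ l, homogeneousComponent K (F * homogeneousComponent l R) =
            if l = K - d then F * homogeneousComponent l R else 0 := by
          intro l
          have h6 : (F * homogeneousComponent l R).IsHomogeneous (d + l) :=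
            hF.mul (homogeneousComponent_isHomogeneous _ _)
          rw [homogeneousComponent_of_mem h6]
          by_cases hl : l = K - d
          · rw [if_pos (by omega), if_pos hl]
          · rw [if_neg (by omega), if_neg hl]
        rw [Finset.sum_congr rfl fun l _ => h5 l, Finset.sum_ite_eq']
        split_ifs with h7
        · ring
        · rw [Finset.mem_range] at h7
          push Not at h7
          rw [homogeneousComponent_eq_zero _ _ (by omega), zero_mul]
      refine ⟨⟨homogeneousComponent (K - d) R, homogeneousComponent_isHomogeneous _ _⟩, ?_⟩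
      refine Subtype.ext ?_
      rw [← h2]
      exact mul_comm _ _
    exact le_trans (Submodule.finrank_mono h1) (LinearMap.finrank_range_le mu)
  have hrn := LinearMap.finrank_range_add_finrank_ker Θ
  rw [finrank_homog k (n + 1) K] at hrn
  haveI : Module.Finite k E := by
    rw [hE]
    exact Module.Finite.span_of_finite k (Set.finite_range _)
  have h9 := Submodule.finrank_mono hrange
  omega

end Lower

end Pool.Agent.H17.PD
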