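import Pool.Agent.H17.PD.Lin

/-!
# MP_ff26cb_ag: upper bound for the products of the maximal minors of a matrix of forms
-/

set_option autoImplicit false

namespace Pool.Agent.H17.PD

open MvPolynomial Finset

/-- signed maximal minors -/
noncomputable def mnr {B : Type} [CommRing B] {n : ℕ} (M : Matrix (Fin (n + 2)) (Fin (n + 1)) B)
    (i : Fin (n + 2)) : B := (-1) ^ (i : ℕ) * (M.submatrix i.succAbove id).det

theorem mnr_sum {B : Type} [CommRing B] {n : ℕ} (M : Matrix (Fin (n + 2)) (Fin (n + 1)) B)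
    (j : Fin (n + 1)) : ∑ i, mnr M i * M i j = 0 := by
  let A : Matrix (Fin (n + 2)) (Fin (n + 2)) B := Matrix.of fun i l => Fin.cases (M i j) (M i) l
  have h1 : A.det = 0 := by
    refine Matrix.det_zero_of_column_eq (i := 0) (j := j.succ) (Fin.succ_ne_zero j).symm ?_
    intro i
    rfl
  rw [Matrix.det_succ_column_zero] at h1
  rw [← h1]
  refine Finset.sum_congr rfl fun i _ => ?_
  have h2 : A.submatrix i.succAbove Fin.succ = M.submatrix i.succAbove id := by
    ext p q
    rfl
  rw [h2, mnr]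
  have h3 : A i 0 = M i j := rfl
  rw [h3]
  ring

section Uni

variable {k : Type} [Field k] {n : ℕ}

/-- monomials -/
noncomputable def mo (α : Fin (n + 2) →₀ ℕ) (β : Fin (n + 1) →₀ ℕ) :
    MvPolynomial (Fin (n + 2) ⊕ Fin (n + 1)) k :=
  (∏ i, X (Sum.inl i) ^ α i) * rename Sum.inr (monomial β 1)

theorem mo_mul (α α' : Fin (n + 2) →₀ ℕ) (β β' : Fin (n + 1) →₀ ℕ) :
    (mo α β * mo α' β' : MvPolynomial (Fin (n + 2) ⊕ Fin (n + 1)) k) = mo (α + α') (β + β') := by
  rw [mo, mo, mo]
  simp only [Finsupp.add_apply, pow_add]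
  rw [Finset.prod_mul_distrib]
  have h : (monomial (β + β') (1 : k)) = monomial β 1 * monomial β' 1 := by
    rw [monomial_mul, one_mul]
  rw [h, map_mul]
  ring

/-- bihomogeneous polynomials -/
noncomputable def HH (k : Type) [Field k] (n a b : ℕ) :
    Submodule k (MvPolynomial (Fin (n + 2) ⊕ Fin (n + 1)) k) :=
  Submodule.span k {x | ∃ (α : Fin (n + 2) →₀ ℕ) (β : Fin (n + 1) →₀ ℕ),
    ∑ i, α i = a ∧ ∑ j, β j = b ∧ x = mo α β}

theorem HH_mul {a b a' b' : ℕ} {x y : MvPolynomial (Fin (n + 2) ⊕ Fin (n + 1)) k}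
    (hx : x ∈ HH k n a b) (hy : y ∈ HH k n a' b') : x * y ∈ HH k n (a + a') (b + b') := by
  have h1 := Submodule.mul_mem_mul hx hy
  rw [HH, HH, Submodule.span_mul_span] at h1
  refine Submodule.span_mono ?_ h1
  rintro _ ⟨_, ⟨α, β, h1, h2, rfl⟩, _, ⟨α', β', h3, h4, rfl⟩, rfl⟩
  refine ⟨α + α', β + β', ?_, ?_, mo_mul _ _ _ _⟩
  · simp only [Finsupp.add_apply, Finset.sum_add_distrib, h1, h3]
  · simp only [Finsupp.add_apply, Finset.sum_add_distrib, h2, h4]

theorem HH_mo (α : Fin (n + 2) →₀ ℕ) (β : Fin (n + 1) →₀ ℕ) :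
    (mo α β : MvPolynomial (Fin (n + 2) ⊕ Fin (n + 1)) k) ∈ HH k n (∑ i, α i) (∑ j, β j) :=
  Submodule.subset_span ⟨α, β, rfl, rfl, rfl⟩

theorem mo_single (i : Fin (n + 2)) :
    (mo (Finsupp.single i 1) 0 : MvPolynomial (Fin (n + 2) ⊕ Fin (n + 1)) k) = X (Sum.inl i) := by
  classical
  rw [mo]
  have h1 : (monomial (0 : Fin (n + 1) →₀ ℕ) (1 : k)) = 1 := rfl
  rw [h1, map_one, mul_one, Finset.prod_eq_single i]
  · rw [Finsupp.single_eq_same, pow_one]
  · intro j _ hj
    rw [Finsupp.single_eq_of_ne hj, pow_zero]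
  · intro h
    exact absurd (Finset.mem_univ _) h

theorem HH_X (i : Fin (n + 2)) :
    (X (Sum.inl i) : MvPolynomial (Fin (n + 2) ⊕ Fin (n + 1)) k) ∈ HH k n 1 0 := by
  have h := HH_mo (k := k) (n := n) (Finsupp.single i 1) 0
  rw [mo_single] at h
  have h1 : ∑ l, (Finsupp.single i 1 : Fin (n + 2) →₀ ℕ) l = 1 := by
    rw [Finset.sum_eq_single i]
    · rw [Finsupp.single_eq_same]
    · intro j _ hj
      rw [Finsupp.single_eq_of_ne hj]
    · intro h
      exact absurd (Finset.mem_univ _) h
  have h2 : ∑ l, (0 : Fin (n + 1) →₀ ℕ) l = 0 := by simp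
  rw [h1, h2] at h
  exact h

theorem HH_form {r : ℕ} (f : MvPolynomial (Fin (n + 1)) k) (hf : f.IsHomogeneous r) :
    (rename Sum.inr f : MvPolynomial (Fin (n + 2) ⊕ Fin (n + 1)) k) ∈ HH k n 0 r := by
  rw [f.as_sum, map_sum]
  refine Submodule.sum_mem _ fun β hβ => ?_
  have h1 : rename Sum.inr (monomial β (coeff β f)) =
      coeff β f • (mo 0 β : MvPolynomial (Fin (n + 2) ⊕ Fin (n + 1)) k) := by
    rw [mo]
    simp only [Finsupp.coe_zero, Pi.zero_apply, pow_zero, Finset.prod_const_one, one_mul]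
    rw [← map_smul, smul_monomial, smul_eq_mul, mul_one]
  rw [h1]
  refine Submodule.smul_mem _ _ (Submodule.subset_span ⟨0, β, ?_, ?_, rfl⟩)
  · simp
  · have h2 := hf (mem_support_iff.1 hβ)
    rw [Finsupp.weight_apply, Finsupp.sum_fintype] at h2
    · rw [← h2]
      refine Finset.sum_congr rfl fun j _ => ?_
      simp
    · intro j
      simp

end Uni

/-- index set of the monomials of bidegree `(a, b)` -/
abbrev Ix (n a b : ℕ) : Type :=
  {α // α ∈ Finset.finsuppAntidiag (Finset.univ : Finset (Fin (n + 2))) a} ×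
    {β // β ∈ Finset.finsuppAntidiag (Finset.univ : Finset (Fin (n + 1))) b}

/-- standard monomials -/
def Std (n r a b : ℕ) : Finset (Ix n a b) :=
  Finset.univ.filter fun μ => ∀ j : Fin (n + 1), μ.1.1 j.castSucc = 0 ∨ μ.2.1 j < r

theorem HH_eq (k : Type) [Field k] (n a b : ℕ) : HH k n a b =
    Submodule.span k (Set.range fun μ : Ix n a b => mo μ.1.1 μ.2.1) := by
  rw [HH]
  congr 1
  ext x
  constructor
  · rintro ⟨α, β, h1, h2, rfl⟩
    refine ⟨(⟨α, ?_⟩, ⟨β, ?_⟩), rfl⟩
    · rw [Finset.mem_finsuppAntidiag]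
      exact ⟨h1, Finset.subset_univ _⟩
    · rw [Finset.mem_finsuppAntidiag]
      exact ⟨h2, Finset.subset_univ _⟩
  · rintro ⟨μ, rfl⟩
    exact ⟨μ.1.1, μ.2.1, (Finset.mem_finsuppAntidiag.1 μ.1.2).1,
      (Finset.mem_finsuppAntidiag.1 μ.2.2).1, rfl⟩

section Main

variable {k : Type} [Field k] {n : ℕ}

/-- the perturbed matrix -/
noncomputable def JX (J : Matrix (Fin (n + 2)) (Fin (n + 1)) (MvPolynomial (Fin (n + 1)) k))
    (r : ℕ) : Matrix (Fin (n + 2)) (Fin (n + 1)) (Polynomial (MvPolynomial (Fin (n + 1)) k)) :=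
  Matrix.of fun i j => Polynomial.C (J i j) +
    Polynomial.X * Polynomial.C (if i = j.castSucc then X j ^ r else 0)

/-- products of minors and monomials -/
noncomputable def pm (D : Fin (n + 2) → MvPolynomial (Fin (n + 1)) k) (α : Fin (n + 2) →₀ ℕ)
    (β : Fin (n + 1) →₀ ℕ) : MvPolynomial (Fin (n + 1)) k :=
  (∏ i, D i ^ α i) * monomial β 1

theorem eval_mnr (J : Matrix (Fin (n + 2)) (Fin (n + 1)) (MvPolynomial (Fin (n + 1)) k))
    (r : ℕ) (z : MvPolynomial (Fin (n + 1)) k) (i : Fin (n + 2)) :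
    (mnr (JX J r) i).eval z = mnr (Matrix.of fun i j => J i j +
      z * (if i = j.castSucc then X j ^ r else 0)) i := by
  rw [mnr, mnr, Polynomial.eval_mul, Polynomial.eval_pow, Polynomial.eval_neg, Polynomial.eval_one]
  congr 1
  have h := (Polynomial.evalRingHom z).map_det ((JX J r).submatrix i.succAbove id)
  rw [Polynomial.coe_evalRingHom] at h
  rw [h]
  congr 1
  ext p q
  rw [RingHom.mapMatrix_apply, Matrix.map_apply, Matrix.submatrix_apply, Matrix.submatrix_apply,
    JX, Matrix.of_apply, Matrix.of_apply, Polynomial.coe_evalRingHom, Polynomial.eval_add,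
    Polynomial.eval_mul, Polynomial.eval_X, Polynomial.eval_C, Polynomial.eval_C]

theorem upper [Infinite k]
    (J : Matrix (Fin (n + 2)) (Fin (n + 1)) (MvPolynomial (Fin (n + 1)) k)) (r : ℕ)
    (hJ : ∀ i j, (J i j).IsHomogeneous r) (a b : ℕ) :
    Module.finrank k (Submodule.span k (Set.range fun μ : Ix n a b => pm (mnr J) μ.1.1 μ.2.1)) ≤
      (Std n r a b).card := by
  classical
  let v : Ix n a b → Polynomial (MvPolynomial (Fin (n + 1)) k) := fun μ =>
    (∏ i, mnr (JX J r) i ^ μ.1.1 i) * Polynomial.C (monomial μ.2.1 1)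
  have hv : ∀ z μ, (v μ).eval z = pm (fun i => (mnr (JX J r) i).eval z) μ.1.1 μ.2.1 := by
    intro z μ
    rw [pm, Polynomial.eval_mul, Polynomial.eval_C, Polynomial.eval_prod]
    simp only [Polynomial.eval_pow]
  have hmnr0 : (fun i => (mnr (JX J r) i).eval 0) = mnr J := by
    funext i
    rw [eval_mnr]
    congr 1
    ext p q
    rw [Matrix.of_apply, zero_mul, add_zero]
  have hv0 : (fun μ => (v μ).eval 0) = fun μ => pm (mnr J) μ.1.1 μ.2.1 := by
    funext μ
    rw [hv, hmnr0]
  -- the universal relations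
  let fj : Fin (n + 1) → MvPolynomial (Fin (n + 2) ⊕ Fin (n + 1)) k := fun j =>
    ∑ i, X (Sum.inl i) * rename Sum.inr (J i j)
  have hfj : ∀ j, fj j ∈ HH k n 1 r := by
    intro j
    refine Submodule.sum_mem _ fun i _ => ?_
    have h := HH_mul (HH_X (k := k) (n := n) i) (HH_form (J i j) (hJ i j))
    rw [zero_add, add_zero] at h
    exact h
  have hR : ∀ μ : Ix n a b, ∃ Rμ : Ix n a b → k, μ ∉ Std n r a b →
      ∃ j : Fin (n + 1), ∃ (α : Fin (n + 2) →₀ ℕ) (β : Fin (n + 1) →₀ ℕ),
      μ.1.1 = α + Finsupp.single j.castSucc 1 ∧ μ.2.1 = β + Finsupp.single j r ∧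
      mo α β * fj j = ∑ ν, Rμ ν • (mo ν.1.1 ν.2.1 :
        MvPolynomial (Fin (n + 2) ⊕ Fin (n + 1)) k) := by
    intro μ
    by_cases hμ : μ ∈ Std n r a b
    · exact ⟨0, fun h => absurd hμ h⟩
    · rw [Std, Finset.mem_filter] at hμ
      push Not at hμ
      obtain ⟨j, hj1, hj2⟩ := hμ (Finset.mem_univ _)
      have h1 : μ.1.1 = (μ.1.1 - Finsupp.single j.castSucc 1) + Finsupp.single j.castSucc 1 := by
        rw [tsub_add_cancel_of_le]
        rw [Finsupp.single_le_iff]
        omega
      have h2 : μ.2.1 = (μ.2.1 - Finsupp.single j r) + Finsupp.single j r := by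
        rw [tsub_add_cancel_of_le]
        rw [Finsupp.single_le_iff]
        exact hj2
      set α := μ.1.1 - Finsupp.single j.castSucc 1 with hα
      set β := μ.2.1 - Finsupp.single j r with hβ
      have h3 : mo α β * fj j ∈ HH k n a b := by
        have h4 := HH_mul (HH_mo (k := k) α β) (hfj j)
        have h5 : ∑ i, α i + 1 = a := by
          have h6' := (Finset.mem_finsuppAntidiag.1 μ.1.2).1
          rw [h1] at h6'
          have h6 : ∑ i, (α + Finsupp.single j.castSucc 1 : Fin (n + 2) →₀ ℕ) i = a := h6'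
          simp only [Finsupp.add_apply] at h6
          rw [Finset.sum_add_distrib] at h6
          rw [← h6]
          congr 1
          rw [Finset.sum_eq_single j.castSucc]
          · rw [Finsupp.single_eq_same]
          · intro l _ hl
            rw [Finsupp.single_eq_of_ne hl]
          · intro h
            exact absurd (Finset.mem_univ _) h
        have h7 : ∑ i, β i + r = b := by
          have h6' := (Finset.mem_finsuppAntidiag.1 μ.2.2).1
          rw [h2] at h6'
          have h6 : ∑ i, (β + Finsupp.single j r : Fin (n + 1) →₀ ℕ) i = b := h6'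
          simp only [Finsupp.add_apply] at h6
          rw [Finset.sum_add_distrib] at h6
          rw [← h6]
          congr 1
          rw [Finset.sum_eq_single j]
          · rw [Finsupp.single_eq_same]
          · intro l _ hl
            rw [Finsupp.single_eq_of_ne hl]
          · intro h
            exact absurd (Finset.mem_univ _) h
        rw [h5, h7] at h4
        exact h4
      rw [HH_eq, Submodule.mem_span_range_iff_exists_fun] at h3
      obtain ⟨c, hc⟩ := h3
      exact ⟨c, fun _ => ⟨j, α, β, h1, h2, hc.symm⟩⟩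
  choose R hR using hR
  have h := dim_le (Std n r a b) R v (by
    intro s μ hμ
    obtain ⟨j, α, β, h1, h2, h3⟩ := hR μ hμ
    set D : Fin (n + 2) → MvPolynomial (Fin (n + 1)) k := fun i =>
      (mnr (JX J r) i).eval (C s) with hD
    let ev : MvPolynomial (Fin (n + 2) ⊕ Fin (n + 1)) k →ₐ[k] MvPolynomial (Fin (n + 1)) k :=
      aeval (Sum.elim D X)
    have hevmo : ∀ (α : Fin (n + 2) →₀ ℕ) (β : Fin (n + 1) →₀ ℕ), ev (mo α β) = pm D α β := by
      intro α β
      rw [mo, pm, map_mul, map_prod]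
      congr 1
      · refine Finset.prod_congr rfl fun i _ => ?_
        rw [map_pow]
        congr 1
        exact aeval_X _ _
      · have h4 : ev (rename Sum.inr (monomial β 1)) = aeval X (monomial β (1 : k)) := by
          exact aeval_rename _ _ _
        rw [h4, aeval_X_left_apply]
    have hevf : ev (fj j) = - (s • (D j.castSucc * X j ^ r)) := by
      have h4 : ev (fj j) = ∑ i, D i * J i j := by
        rw [map_sum]
        refine Finset.sum_congr rfl fun i _ => ?_
        rw [map_mul]
        congr 1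
        · exact aeval_X _ _
        · have h5 : ev (rename Sum.inr (J i j)) = aeval X (J i j) := aeval_rename _ _ _
          rw [h5, aeval_X_left_apply]
      have h6 := mnr_sum (JX J r) j
      have h7 := congrArg (Polynomial.eval (C s)) h6
      rw [Polynomial.eval_finsetSum, Polynomial.eval_zero] at h7
      have h8 : ∀ i, Polynomial.eval (C s) (mnr (JX J r) i * JX J r i j) =
          D i * J i j + (if i = j.castSucc then s • (D i * X j ^ r) else 0) := by
        intro i
        rw [Polynomial.eval_mul, JX, Matrix.of_apply, Polynomial.eval_add, Polynomial.eval_C,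
          Polynomial.eval_mul, Polynomial.eval_X, Polynomial.eval_C]
        rw [show Polynomial.eval (C s) (mnr (Matrix.of fun i j => Polynomial.C (J i j) +
          Polynomial.X * Polynomial.C (if i = j.castSucc then X j ^ r else 0)) i) = D i from rfl]
        split_ifs
        · rw [smul_eq_C_mul]; ring
        · ring
      rw [Finset.sum_congr rfl fun i _ => h8 i, Finset.sum_add_distrib,
        Finset.sum_ite_eq' Finset.univ, if_pos (Finset.mem_univ _)] at h7
      rw [h4]
      exact eq_neg_of_add_eq_zero_left h7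
    have h9 := congrArg ev h3
    rw [map_mul, hevmo, hevf, map_sum] at h9
    have h10 : ∀ ν : Ix n a b, ev (R μ ν • mo ν.1.1 ν.2.1) =
        R μ ν • (v ν).eval (algebraMap k (MvPolynomial (Fin (n + 1)) k) s) := by
      intro ν
      rw [map_smul, hevmo, hv]
      rfl
    rw [Finset.sum_congr rfl fun ν _ => h10 ν] at h9
    rw [← h9, hv]
    have h11 : pm (fun i => (mnr (JX J r) i).eval (algebraMap k (MvPolynomial (Fin (n + 1)) k) s))
        μ.1.1 μ.2.1 = pm D α β * (D j.castSucc * X j ^ r) := by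
      rw [h1, h2, pm, pm]
      simp only [Finsupp.add_apply, pow_add]
      rw [Finset.prod_mul_distrib]
      have h12 : ∏ i, (D i) ^ ((Finsupp.single j.castSucc 1 : Fin (n + 2) →₀ ℕ) i) =
          D j.castSucc := by
        rw [Finset.prod_eq_single j.castSucc]
        · rw [Finsupp.single_eq_same, pow_one]
        · intro l _ hl
          rw [Finsupp.single_eq_of_ne hl, pow_zero]
        · intro h
          exact absurd (Finset.mem_univ _) h
      have h13 : (monomial (β + Finsupp.single j r) (1 : k)) = monomial β 1 * X j ^ r := by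
        rw [X_pow_eq_monomial, monomial_mul, one_mul]
      rw [h13]
      rw [show (∏ i, Polynomial.eval (algebraMap k (MvPolynomial (Fin (n + 1)) k) s)
        (mnr (JX J r) i) ^ ((Finsupp.single j.castSucc 1 : Fin (n + 2) →₀ ℕ) i)) =
          D j.castSucc from h12]
      rw [show (∏ i, Polynomial.eval (algebraMap k (MvPolynomial (Fin (n + 1)) k) s)
        (mnr (JX J r) i) ^ (α i)) = ∏ i, D i ^ α i from rfl]
      ring
    rw [h11]
    rw [mul_neg, mul_smul_comm, add_neg_cancel])
  rw [hv0] at h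
  exact h

end Main

end Pool.Agent.H17.PD
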